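import Pool.Agent.Helper85.IA.St

/-!
# Project IA part N (MP_953b28_co), module EXJ: one and two coordinates of a product measure
-/

set_option autoImplicit false

namespace Pool.Agent.Helper80.IA85

open Finset Pool.Agent.Helper93.IA Pool.Agent.Helper85.IA

private theorem ex_prod {ι : Type} [Fintype ι] [DecidableEq ι] {κ : ι → Type} [∀ i, Fintype (κ i)]
    (w φ : ∀ i, κ i → ℝ) :
    Ex w (fun σ => ∏ i, φ i (σ i)) = ∏ i, ∑ v, w i v * φ i v := by
  unfold Ex
  have h := Finset.prod_univ_sum (fun i : ι => (univ : Finset (κ i))) (fun i v => w i v * φ i v)
  rw [Fintype.piFinset_univ] at h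
  rw [h]
  refine Finset.sum_congr rfl fun σ _ => ?_
  rw [Finset.prod_mul_distrib]

theorem hEXJ : StEXJ := by
  intro ι _ _ κ _ _ w hw
  have key : ∀ (i : ι) (v : κ i), ∑ u, w i u * (if u = v then (1 : ℝ) else 0) = w i v := by
    intro i v
    simp
  refine ⟨?_, ?_⟩
  · intro i v
    have h := ex_prod w (Function.update (fun _ _ => (1 : ℝ)) i (fun u => if u = v then 1 else 0))
    have h1 : ∀ σ : (∀ i, κ i), ∏ k, (Function.update (fun _ _ => (1 : ℝ)) i
        (fun u => if u = v then 1 else 0) : ∀ i, κ i → ℝ) k (σ k) = if σ i = v then 1 else 0 := by
      intro σ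
      rw [Finset.prod_eq_single i]
      · rw [Function.update_self]
      · intro k _ hk
        rw [Function.update_of_ne hk]
      · intro hi
        exact absurd (mem_univ i) hi
    simp only [h1] at h
    rw [h, Finset.prod_eq_single i]
    · rw [Function.update_self]
      exact key i v
    · intro k _ hk
      rw [Function.update_of_ne hk]
      simp only [mul_one]
      exact hw k
    · intro hi
      exact absurd (mem_univ i) hi
  · intro i j v v' hij
    have h := ex_prod w (Function.update (Function.update (fun _ _ => (1 : ℝ)) i
      (fun u => if u = v then 1 else 0)) j (fun u => if u = v' then 1 else 0))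
    have h1 : ∀ σ : (∀ i, κ i), ∏ k, (Function.update (Function.update (fun _ _ => (1 : ℝ)) i
        (fun u => if u = v then 1 else 0)) j (fun u => if u = v' then 1 else 0) :
        ∀ i, κ i → ℝ) k (σ k) = if σ i = v ∧ σ j = v' then 1 else 0 := by
      intro σ
      rw [Finset.prod_eq_mul i j hij]
      · rw [Function.update_self, Function.update_of_ne hij, Function.update_self]
        by_cases h2 : σ i = v <;> by_cases h3 : σ j = v' <;> simp [h2, h3]
      · intro k _ hk
        rw [Function.update_of_ne hk.2, Function.update_of_ne hk.1]
      · intro hi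
        exact absurd (mem_univ i) hi
      · intro hi
        exact absurd (mem_univ j) hi
    simp only [h1] at h
    rw [h, Finset.prod_eq_mul i j hij]
    · rw [Function.update_self, Function.update_of_ne hij, Function.update_self, key i v, key j v']
    · intro k _ hk
      rw [Function.update_of_ne hk.2, Function.update_of_ne hk.1]
      simp only [mul_one]
      exact hw k
    · intro hi
      exact absurd (mem_univ i) hi
    · intro hi
      exact absurd (mem_univ j) hi

end Pool.Agent.Helper80.IA85
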