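import Pool.Agent.Helper85.IA.St

/-!
# Project IA part N (MP_953b28_co), module TDC: tests for the degrees of `C`
-/

set_option autoImplicit false

namespace Pool.Agent.Helper80.IA85

open Finset Pool.Agent.Helper93.IA Pool.Agent.Helper85.IA

section

variable {α β γ : Type} [Fintype α] [Fintype β] [Fintype γ] [DecidableEq α] [DecidableEq β]
  [DecidableEq γ]

private theorem card_snd (b : β) : (univ.filter fun p : α × β => p.2 = b).card ≤ Fintype.card α := by
  rw [← Finset.card_univ]
  refine Finset.card_le_card_of_injOn Prod.fst (fun p _ => mem_univ _) ?_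
  intro p hp q hq h
  simp only [coe_filter, mem_univ, true_and, Set.mem_ofPred_eq] at hp hq
  exact Prod.ext h (hp.trans hq.symm)

private theorem card_fst (a : α) : (univ.filter fun p : α × β => p.1 = a).card ≤ Fintype.card β := by
  rw [← Finset.card_univ]
  refine Finset.card_le_card_of_injOn Prod.snd (fun p _ => mem_univ _) ?_
  intro p hp q hq h
  simp only [coe_filter, mem_univ, true_and, Set.mem_ofPred_eq] at hp hq
  exact Prod.ext (hp.trans hq.symm) h

private theorem d1_sum (X : Finset (γ × α)) (c : γ) :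
    (d1 X c : ℝ) = ∑ a, if (c, a) ∈ X then (1 : ℝ) else 0 := by
  rw [Finset.sum_boole]
  norm_cast
  unfold d1
  symm
  refine Finset.card_bij (fun b _ => (c, b)) ?_ ?_ ?_
  · intro b hb
    simp only [mem_filter, mem_univ, true_and] at hb ⊢
    exact ⟨hb, trivial⟩
  · intro b _ b' _ h
    exact (Prod.mk.inj h).2
  · intro e he
    simp only [mem_filter] at he
    refine ⟨e.2, ?_, ?_⟩
    · simp only [mem_filter, mem_univ, true_and]
      rw [← he.2]
      exact he.1
    · rw [← he.2]

private theorem d2_sum (X : Finset (γ × α)) (a : α) :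
    (d2 X a : ℝ) = ∑ c, if (c, a) ∈ X then (1 : ℝ) else 0 := by
  rw [Finset.sum_boole]
  norm_cast
  unfold d2
  symm
  refine Finset.card_bij (fun b _ => (b, a)) ?_ ?_ ?_
  · intro b hb
    simp only [mem_filter, mem_univ, true_and] at hb ⊢
    exact ⟨hb, trivial⟩
  · intro b _ b' _ h
    exact (Prod.mk.inj h).1
  · intro e he
    simp only [mem_filter] at he
    refine ⟨e.1, ?_, ?_⟩
    · simp only [mem_filter, mem_univ, true_and]
      rw [← he.2]
      exact he.1
    · rw [← he.2]

private theorem yd {Λ ε δ d : ℝ} {n : ℕ} {A : Finset (α × β)} {B : Finset (β × γ)}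
    {C : Finset (γ × α)} {x : α → β → γ → ℝ} (he : 0 < ε) (he1 : ε ≤ 1 / 8)
    (h : Dat Λ δ d n A B C x) : Yd ε (ε * (Λ / n)) (fun a b c => ε * x a b c) := by
  refine ⟨by linarith, fun a b c => mul_nonneg he.le (h.x0 a b c),
    fun a b c => mul_le_mul_of_nonneg_left (h.xl a b c) he.le, ?_, ?_, ?_⟩
  · intro a b
    rw [← Finset.mul_sum]
    have := mul_le_mul_of_nonneg_left (h.uA a b) he.le
    linarith
  · intro b c
    rw [← Finset.mul_sum]
    have := mul_le_mul_of_nonneg_left (h.uB b c) he.le
    linarith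
  · intro c a
    rw [← Finset.mul_sum]
    have := mul_le_mul_of_nonneg_left (h.uC c a) he.le
    linarith

/-- The mean of one term. -/
private theorem mean_term {Λ ε δ d : ℝ} {n : ℕ} {A : Finset (α × β)} {B : Finset (β × γ)}
    {C : Finset (γ × α)} {x : α → β → γ → ℝ} (he : 0 < ε) (he1 : ε ≤ 1 / 8) (hδ : 0 ≤ δ)
    (hδ1 : δ ≤ 1 / 4) (h : Dat Λ δ d n A B C x) (hKMN : StKMN) (c : γ) (a : α) :
    E (fun a b c => ε * x a b c)
      (fun σ : α × β → Option γ => if (c, a) ∈ C then 1 - kC σ c a else 0)
      ≤ (1 - ε / 2) * (if (c, a) ∈ C then (1 : ℝ) else 0) := by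
  by_cases hc : (c, a) ∈ C
  · simp only [hc, if_true, mul_one]
    have h1 : E (fun a b c => ε * x a b c) (fun σ : α × β → Option γ => 1 - kC σ c a)
        = 1 - E (fun a b c => ε * x a b c) (fun σ : α × β → Option γ => kC σ c a) := by
      unfold E
      rw [Ex_sub, Ex_one (wt_sum _)]
    rw [h1]
    have h2 := ((hKMN α β γ ε (ε * (Λ / n)) (fun a b c => ε * x a b c) (yd he he1 h)).2.2 c a).2
    rw [← Finset.mul_sum] at h2
    have h3 := h.lC c a hc
    have h4 : (1 - 2 * ε) * (ε * (1 - δ)) ≤ (1 - 2 * ε) * (ε * ∑ b, x a b c) :=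
      mul_le_mul_of_nonneg_left (mul_le_mul_of_nonneg_left h3 he.le) (by linarith)
    have h5 : (1 / 2 : ℝ) ≤ (1 - 2 * ε) * (1 - δ) := by nlinarith
    have h6 : ε * (1 / 2) ≤ ε * ((1 - 2 * ε) * (1 - δ)) := mul_le_mul_of_nonneg_left h5 he.le
    have h7 : (1 - 2 * ε) * (ε * (1 - δ)) = ε * ((1 - 2 * ε) * (1 - δ)) := by ring
    linarith
  · simp only [hc, if_false, mul_zero]
    have h1 : E (fun a b c => ε * x a b c) (fun _ : α × β → Option γ => (0 : ℝ)) = 0 := by
      unfold E
      exact Ex_const (wt_sum _) 0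
    rw [h1]

end

theorem hTDC : StKUB → StLO3 → StLO1 → StKMN → StTDC := by
  intro _ hLO3 hLO1 hKMN
  intro α β γ _ _ _ _ _ _ Λ ε δ d η n A B C x _ he he1 hδ hδ1 _ hn h
  refine ⟨?_, ?_⟩
  · intro c
    have hne : Nonempty β := by
      rw [← Fintype.card_pos_iff, h.nβ]
      exact hn
    obtain ⟨b⟩ := hne
    have hf : (fun σ : α × β → Option γ => ∑ a, (if (c, a) ∈ C then 1 - kC σ c a else 0))
        = fun σ => F3 σ (fun a => if (c, a) ∈ C then (1 : ℝ) else 0) 0 1 b c := by
      funext σ
      unfold F3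
      refine Finset.sum_congr rfl fun a _ => ?_
      by_cases hc : (c, a) ∈ C <;> simp [hc]
    refine ⟨univ.filter fun p => p.2 = b, ?_, ?_, ?_⟩
    · rw [hf]
      refine hLO3 α β γ _ 0 1 b c ?_ le_rfl zero_le_one zero_le_one le_rfl
      intro a
      by_cases hc : (c, a) ∈ C <;> simp [hc]
    · have h1 := card_snd (α := α) b
      rw [h.nα] at h1
      omega
    · have h1 : E (fun a b c => ε * x a b c)
          (fun σ : α × β → Option γ => ∑ a, (if (c, a) ∈ C then 1 - kC σ c a else 0))
          = ∑ a, E (fun a b c => ε * x a b c)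
            (fun σ : α × β → Option γ => if (c, a) ∈ C then 1 - kC σ c a else 0) := by
        unfold E
        exact Ex_sum _ _
      rw [h1, d1_sum, Finset.mul_sum]
      have h2 := Finset.sum_le_sum (s := (univ : Finset α))
        fun a _ => mean_term he he1 hδ hδ1 h hKMN c a
      linarith
  · intro a
    have hne : Nonempty β := by
      rw [← Fintype.card_pos_iff, h.nβ]
      exact hn
    obtain ⟨b⟩ := hne
    have hf : (fun σ : α × β → Option γ => ∑ c, (if (c, a) ∈ C then 1 - kC σ c a else 0))
        = fun σ => F1 σ (fun c => if (c, a) ∈ C then (1 : ℝ) else 0) 0 1 a b := by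
      funext σ
      unfold F1
      refine Finset.sum_congr rfl fun c _ => ?_
      by_cases hc : (c, a) ∈ C <;> simp [hc]
    refine ⟨univ.filter fun p => p.1 = a ∨ p.2 = b, ?_, ?_, ?_⟩
    · rw [hf]
      refine hLO1 α β γ _ 0 1 a b ?_ le_rfl zero_le_one zero_le_one le_rfl
      intro c
      by_cases hc : (c, a) ∈ C <;> simp [hc]
    · have h1 := card_snd (α := α) b
      have h2 := card_fst (β := β) a
      rw [h.nα] at h1
      rw [h.nβ] at h2
      have h3 := Finset.card_union_le (univ.filter fun p : α × β => p.1 = a)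
        (univ.filter fun p : α × β => p.2 = b)
      rw [← Finset.filter_or] at h3
      omega
    · have h1 : E (fun a b c => ε * x a b c)
          (fun σ : α × β → Option γ => ∑ c, (if (c, a) ∈ C then 1 - kC σ c a else 0))
          = ∑ c, E (fun a b c => ε * x a b c)
            (fun σ : α × β → Option γ => if (c, a) ∈ C then 1 - kC σ c a else 0) := by
        unfold E
        exact Ex_sum _ _
      rw [h1, d2_sum, Finset.mul_sum]
      have h2 := Finset.sum_le_sum (s := (univ : Finset γ))
        fun c _ => mean_term he he1 hδ hδ1 h hKMN c a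
      linarith

end Pool.Agent.Helper80.IA85
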